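import Mathlib

set_option autoImplicit false

/-! # Patterns of weights of multiple zeta values: definitions and statements -/

namespace Pool.Agent.W46.MZ

open Finset

/-- The `ℚ`-span of the multiple zeta values of weight `n` (weight `0` gives `ℚ`). -/
noncomputable def Z (n : ℕ) : Submodule ℚ ℝ :=
  Submodule.span ℚ
    {x : ℝ | ∃ t : ℕ, ∃ k : Fin t → ℕ,
      (∀ i, 1 ≤ k i) ∧ (∀ h : 0 < t, 2 ≤ k ⟨0, h⟩) ∧ (∑ i, k i) = n ∧
      x = ∑' m : {m : Fin t → ℕ // StrictAnti m ∧ ∀ i, 1 ≤ m i},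
            ∏ i, (((m.1 i : ℕ) : ℝ) ^ (k i))⁻¹}

/-- The sum of the spaces `Z t`, `t ∈ T`, is direct. -/
def Direct (T : Finset ℕ) : Prop :=
  ∀ z : ℕ → ℝ, (∀ j ∈ T, z j ∈ Z j) → ∑ j ∈ T, z j = 0 → ∀ j ∈ T, z j = 0

/-- The problem: for every `p` the sum `Z 0 + ... + Z p` is direct. -/
def Q1 : Prop := ∀ p : ℕ, Direct (range (p + 1))

/-- quotients of two elements of the same weight -/
def K0 : Set ℝ := {x | ∃ n : ℕ, ∃ a ∈ Z n, ∃ b ∈ Z n, b ≠ 0 ∧ x = a / b}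

/-- `dim (Z 0 + ... + Z p)` -/
noncomputable def Fdim (p : ℕ) : ℕ := Module.finrank ℚ (⨆ j ∈ range (p + 1), Z j : Submodule ℚ ℝ)

/-- `dim Z 0 + ... + dim Z p` -/
noncomputable def Ddim (p : ℕ) : ℕ := ∑ j ∈ range (p + 1), Module.finrank ℚ (Z j)

/-- `S` contains, for every `n`, arbitrarily far out a window of bounded length with `n` elements
of `S`. -/
def Clustered (S : Set ℕ) : Prop :=
  ∀ n : ℕ, ∃ L : ℕ, ∀ x₀ : ℕ, ∃ x, x₀ ≤ x ∧ ∃ T : Finset ℕ, T ⊆ Icc x (x + L) ∧ (T : Set ℕ) ⊆ S ∧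
    T.card = n

/-- E1: the crude bound for the dimensions. -/
def S_BND : Prop := (∀ n, Module.Finite ℚ (Z n)) ∧ ∀ p, Ddim p ≤ 2 ^ p

/-- E2: one relation costs `Ddim (p - q)` dimensions. -/
def S_DROP : Prop :=
  (∀ n, Module.Finite ℚ (Z n)) →
  ∀ P : ℕ, ¬ Direct (range (P + 1)) → ∀ p : ℕ, P ≤ p → Fdim p + Ddim (p - P) ≤ Ddim p

/-- DENS: a set of positive upper Banach density is clustered: for some `k ≥ 1` there are
arbitrarily long windows, arbitrarily far out, in which `S` has at least one `k`-th of the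
elements. -/
def S_DENS : Prop :=
  ∀ S : Set ℕ, (∃ k : ℕ, 1 ≤ k ∧ ∀ M x₀ : ℕ, ∃ x, x₀ ≤ x ∧ ∃ N, M ≤ N ∧
    ∃ T : Finset ℕ, T ⊆ Icc x (x + N) ∧ (T : Set ℕ) ⊆ S ∧ N ≤ k * T.card) → Clustered S

end Pool.Agent.W46.MZ
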