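import Mathlib
import Pool.Agent.W46.MZ.Stm
import Pool.Agent.H447R2.MZ.Tup

set_option autoImplicit false

namespace Pool.Agent.W46.MZ

open Finset Polynomial

theorem zmul {a b : ℕ} {x y : ℝ} (hx : x ∈ Z a) (hy : y ∈ Z b) : x * y ∈ Z (a + b) :=
  Pool.Agent.H447R2.MZ.mul_mem a b x y hx hy

theorem zpow {a : ℕ} {x : ℝ} (hx : x ∈ Z a) (i : ℕ) : x ^ i ∈ Z (a * i) :=
  Pool.Agent.H447R2.MZ.pow_mem a x hx i

theorem zone : (1 : ℝ) ∈ Z 0 := Pool.Agent.H447R2.MZ.one_mem

theorem pi2mem : Real.pi ^ 2 ∈ Z 2 := Pool.Agent.H447R2.MZ.pi_sq_mem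

theorem exists_nonzero (k : ℕ) (hk : 2 ≤ k) : ∃ u ∈ Z k, u ≠ 0 :=
  ⟨_, Pool.Agent.H447R2.MZ.zeta_mem k hk, (Pool.Agent.H447R2.MZ.zeta_pos k hk).ne'⟩

/-- the field of quotients of equal weight -/
noncomputable def KF : Subfield ℝ where
  carrier := K0
  mul_mem' := by
    rintro x y ⟨n, a, ha, b, hb, hb0, rfl⟩ ⟨m, c, hc, d, hd, hd0, rfl⟩
    exact ⟨n + m, a * c, zmul ha hc, b * d, zmul hb hd, mul_ne_zero hb0 hd0, by field_simp⟩
  one_mem' := ⟨0, 1, zone, 1, zone, one_ne_zero, by simp⟩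
  add_mem' := by
    rintro x y ⟨n, a, ha, b, hb, hb0, rfl⟩ ⟨m, c, hc, d, hd, hd0, rfl⟩
    exact ⟨n + m, a * d + b * c, Submodule.add_mem _ (zmul ha hd) (zmul hb hc), b * d,
      zmul hb hd, mul_ne_zero hb0 hd0, by field_simp⟩
  zero_mem' := ⟨0, 0, Submodule.zero_mem _, 1, zone, one_ne_zero, by simp⟩
  neg_mem' := by
    rintro x ⟨n, a, ha, b, hb, hb0, rfl⟩
    exact ⟨n, -a, Submodule.neg_mem _ ha, b, hb, hb0, by ring⟩
  inv_mem' := by
    rintro x ⟨n, a, ha, b, hb, hb0, rfl⟩
    by_cases h : a = 0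
    · subst h
      exact ⟨0, 0, Submodule.zero_mem _, 1, zone, one_ne_zero, by simp⟩
    · exact ⟨n, b, hb, a, ha, h, by rw [inv_div]⟩

theorem mem_KF {x : ℝ} : x ∈ KF ↔ x ∈ K0 := Iff.rfl

/-- common denominators -/
theorem common (T : Finset ℕ) (c : ℕ → ℝ) (hc : ∀ t ∈ T, c t ∈ K0) :
    ∃ n, ∃ b ∈ Z n, b ≠ 0 ∧ ∀ t ∈ T, b * c t ∈ Z n := by
  classical
  induction T using Finset.induction_on with
  | empty => exact ⟨0, 1, zone, one_ne_zero, by simp⟩
  | insert t T ht ih =>
    obtain ⟨n, b, hb, hb0, h⟩ := ih fun s hs => hc s (mem_insert_of_mem hs)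
    obtain ⟨m, a, ha, d, hd, hd0, e⟩ := hc t (mem_insert_self t T)
    refine ⟨n + m, b * d, zmul hb hd, mul_ne_zero hb0 hd0, ?_⟩
    intro s hs
    rcases mem_insert.1 hs with rfl | hs
    · have e1 : b * d * c s = b * a := by rw [e]; field_simp
      rw [e1]
      exact zmul hb ha
    · have e1 : b * d * c s = (b * c s) * d := by ring
      rw [e1]
      exact zmul (h s hs) hd

/-- a failure of directness makes every homogeneous element algebraic over the field `KF`. -/
theorem alg_of_not (p : ℕ) (h : ¬ Direct (range (p + 1))) (w z : ℝ) (a b : ℕ) (hw : w ∈ Z a)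
    (hw0 : w ≠ 0) (hz : z ∈ Z b) (hz0 : z ≠ 0) (hab : a = b + 1) :
    ∃ P : KF[X], P ≠ 0 ∧ P.natDegree ≤ p ∧ aeval (w / z) P = 0 := by
  classical
  unfold Direct at h
  push Not at h
  obtain ⟨y, hy, hs, j, hj, hj0⟩ := h
  have hc : ∀ i ∈ range (p + 1), y i / (w / z) ^ i ∈ KF := by
    intro i hi
    have h1 := zmul (hy i hi) (zpow hz i)
    have h2 := zpow hw i
    refine ⟨a * i, y i * z ^ i, ?_, w ^ i, h2, pow_ne_zero _ hw0, ?_⟩
    · have : i + b * i = a * i := by subst hab; ring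
      rwa [this] at h1
    · have h3 := pow_ne_zero i hw0
      have h4 := pow_ne_zero i hz0
      rw [div_pow]
      field_simp
  let c : ℕ → KF := fun i => if hi : i ∈ range (p + 1) then ⟨_, hc i hi⟩ else 0
  have hcv : ∀ i ∈ range (p + 1), ((c i : KF) : ℝ) = y i / (w / z) ^ i := by
    intro i hi
    simp only [c, hi, dif_pos]
  let P : KF[X] := ∑ i ∈ range (p + 1), Polynomial.monomial i (c i)
  have hcoef : ∀ i ∈ range (p + 1), P.coeff i = c i := by
    intro i hi
    simp only [P, Polynomial.finsetSum_coeff, Polynomial.coeff_monomial]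
    rw [Finset.sum_ite_eq' (range (p + 1)) i c]
    simp [hi]
  have hwz : w / z ≠ 0 := div_ne_zero hw0 hz0
  refine ⟨P, ?_, ?_, ?_⟩
  · intro h0
    have h1 := hcoef j hj
    rw [h0, Polynomial.coeff_zero] at h1
    have h2 := hcv j hj
    rw [← h1] at h2
    have h3 : y j / (w / z) ^ j = 0 := by rw [← h2]; rfl
    rcases div_eq_zero_iff.1 h3 with h4 | h4
    · exact hj0 h4
    · exact pow_ne_zero _ hwz h4
  · refine Polynomial.natDegree_sum_le_of_forall_le _ _ fun i hi => ?_
    exact (Polynomial.natDegree_monomial_le _).trans (by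
      have := mem_range.1 hi
      omega)
  · simp only [P, map_sum, Polynomial.aeval_monomial]
    rw [← hs]
    refine Finset.sum_congr rfl fun i hi => ?_
    have h3 := pow_ne_zero i hwz
    have h4 : (algebraMap KF ℝ) (c i) = y i / (w / z) ^ i := hcv i hi
    rw [h4, div_mul_cancel₀ _ h3]

/-- Any `p + 1` powers of an element of degree `≤ p` are dependent. -/
theorem dep_pow (x : ℝ) (p : ℕ) (P : KF[X]) (hP : P ≠ 0) (hd : P.natDegree ≤ p)
    (hx : aeval x P = 0) (T : Finset ℕ) (hT : T.card = p + 1) :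
    ∃ c : ℕ → ℝ, (∀ t ∈ T, c t ∈ K0) ∧ (∃ t ∈ T, c t ≠ 0) ∧ ∑ t ∈ T, c t * x ^ t = 0 := by
  classical
  have halg : IsAlgebraic KF x := ⟨P, hP, hx⟩
  have hint : IsIntegral KF x := halg.isIntegral
  have hfin := IntermediateField.adjoin.finiteDimensional hint
  have hrk : Module.finrank KF (IntermediateField.adjoin KF {x}) ≤ p := by
    rw [IntermediateField.adjoin.finrank hint]
    exact (Polynomial.natDegree_le_natDegree (minpoly.degree_le_of_ne_zero KF x hP hx)).trans hd
  let v : T → IntermediateField.adjoin KF {x} := fun t =>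
    (IntermediateField.AdjoinSimple.gen KF x) ^ (t : ℕ)
  have hv : ¬ LinearIndependent KF v := by
    intro hv
    have h1 := hv.fintype_card_le_finrank
    rw [Fintype.card_coe, hT] at h1
    omega
  rw [Fintype.not_linearIndependent_iff] at hv
  obtain ⟨g, hg, i, hi⟩ := hv
  refine ⟨fun t => if ht : t ∈ T then ((g ⟨t, ht⟩ : KF) : ℝ) else 0, ?_, ⟨i, i.2, ?_⟩, ?_⟩
  · intro t ht
    simp only [ht, dif_pos]
    exact (g ⟨t, ht⟩).2
  · simp only [i.2, dif_pos]
    intro h0
    exact hi (Subtype.ext h0)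
  · have h1 := congrArg (fun y : IntermediateField.adjoin KF {x} => (y : ℝ)) hg
    simp only [IntermediateField.coe_sum, IntermediateField.coe_smul, v, IntermediateField.coe_pow,
      IntermediateField.AdjoinSimple.coe_gen, IntermediateField.coe_zero] at h1
    rw [← Finset.sum_coe_sort T] 
    rw [← h1]
    refine Finset.sum_congr rfl fun t _ => ?_
    simp only [t.2, dif_pos]
    rfl

/-- A failure of directness with `p + 1` weights propagates to every pattern of `p + 1` weights. -/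
theorem pattern (p : ℕ) (h : ¬ Direct (range (p + 1))) (E : Finset ℕ) (hE : E.card = p + 1) :
    ∃ M₀ : ℕ, ∀ M, M₀ ≤ M → ¬ Direct (E.image (fun e => e + M)) := by
  classical
  obtain ⟨u3, hu3, hu30⟩ := exists_nonzero 3 (by norm_num)
  obtain ⟨u2, hu2, hu20⟩ := exists_nonzero 2 (by norm_num)
  obtain ⟨P, hP, hd, hx⟩ := alg_of_not p h u3 u2 3 2 hu3 hu30 hu2 hu20 rfl
  obtain ⟨c, hc, ⟨t, ht, ht0⟩, hs⟩ := dep_pow _ p P hP hd hx E hE
  obtain ⟨n, b, hb, hb0, hbc⟩ := common E c hc
  let L := E.sup id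
  have hL : ∀ e ∈ E, e ≤ L := fun e he => Finset.le_sup (f := id) he
  refine ⟨n + 2 * L + 2, fun M hM hdir => ?_⟩
  obtain ⟨u, hu, hu0⟩ := exists_nonzero (M - (n + 2 * L)) (by omega)
  let y : ℕ → ℝ := fun j => u * (b * c (j - M) * (u3 ^ (j - M) * u2 ^ (L - (j - M))))
  have h1 : ∀ j ∈ E.image (fun e => e + M), y j ∈ Z j := by
    intro j hj
    obtain ⟨e, he, rfl⟩ := mem_image.1 hj
    have e1 : e + M - M = e := by omega
    simp only [y, e1]
    have h2 := zmul hu (zmul (hbc e he) (zmul (zpow hu3 e) (zpow hu2 (L - e))))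
    have e2 : M - (n + 2 * L) + (n + (3 * e + 2 * (L - e))) = e + M := by
      have := hL e he
      omega
    rwa [e2] at h2
  have h2 : ∑ j ∈ E.image (fun e => e + M), y j = 0 := by
    rw [Finset.sum_image (by intro a _ b _ hab; simpa using hab)]
    have : ∀ e ∈ E, y (e + M) = u * b * u2 ^ L * (c e * (u3 / u2) ^ e) := by
      intro e he
      have e1 : e + M - M = e := by omega
      simp only [y, e1]
      have e3 : u2 ^ L = u2 ^ (L - e) * u2 ^ e := by
        rw [← pow_add]; congr 1; have := hL e he; omega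
      rw [e3, div_pow]
      have := pow_ne_zero e hu20
      field_simp
    rw [Finset.sum_congr rfl this, ← Finset.mul_sum, hs, mul_zero]
  have h3 := hdir y h1 h2 (t + M) (mem_image_of_mem _ ht)
  have e1 : t + M - M = t := by omega
  simp only [y, e1] at h3
  have h4 : u * (b * c t * (u3 ^ t * u2 ^ (L - t))) ≠ 0 :=
    mul_ne_zero hu0 (mul_ne_zero (mul_ne_zero hb0 ht0)
      (mul_ne_zero (pow_ne_zero _ hu30) (pow_ne_zero _ hu20)))
  exact h4 h3

/-- The window form. -/
theorem window (p : ℕ) (h : ¬ Direct (range (p + 1))) (L : ℕ) :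
    ∃ x₀ : ℕ, ∀ x, x₀ ≤ x → ∀ T : Finset ℕ, T ⊆ Icc x (x + L) → T.card = p + 1 → ¬ Direct T := by
  classical
  choose! M hM using fun (E : Finset ℕ) (hE : E.card = p + 1) => pattern p h E hE
  refine ⟨(range (L + 1)).powerset.sup M, fun x hx T hT hc => ?_⟩
  have e1 : (T.image (fun t => t - x)).image (fun e => e + x) = T := by
    rw [Finset.image_image]
    conv_rhs => rw [← Finset.image_id (s := T)]
    refine Finset.image_congr ?_
    intro t ht
    have := (mem_Icc.1 (hT ht)).1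
    simp only [Function.comp, id]
    omega
  have hc' : (T.image (fun t => t - x)).card = p + 1 := by
    rw [← hc]
    refine Finset.card_image_of_injOn ?_
    intro a ha b hb hab
    have h1 := (mem_Icc.1 (hT ha)).1
    have h2 := (mem_Icc.1 (hT hb)).1
    simp only at hab
    omega
  have hsub : T.image (fun t => t - x) ∈ (range (L + 1)).powerset := by
    rw [mem_powerset]
    intro s hs
    obtain ⟨t, ht, rfl⟩ := mem_image.1 hs
    have := (mem_Icc.1 (hT ht)).2
    rw [mem_range]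
    omega
  have := hM _ hc' x ((Finset.le_sup (f := M) hsub).trans hx)
  rwa [e1] at this

theorem Direct.mono {S T : Finset ℕ} (h : Direct T) (hST : S ⊆ T) : Direct S := by
  classical
  intro z hz hs j hj
  have := h (fun i => if i ∈ S then z i else 0) (by
    intro i _
    by_cases hi : i ∈ S
    · simpa [hi] using hz i hi
    · simp [hi]) (by
    rw [← Finset.sum_filter, Finset.filter_mem_eq_inter, Finset.inter_eq_right.2 hST]
    exact hs) j (hST hj)
  simpa [hj] using this

theorem direct_of_Q1 (h : Q1) (T : Finset ℕ) : Direct T := by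
  refine (h (T.sup id)).mono ?_
  intro t ht
  rw [mem_range]
  exact Nat.lt_succ_of_le (Finset.le_sup (f := id) ht)

theorem clustered_iff (S : Set ℕ) (hS : Clustered S) :
    (∀ T : Finset ℕ, (T : Set ℕ) ⊆ S → Direct T) ↔ Q1 := by
  constructor
  · intro h p
    by_contra hp
    obtain ⟨L, hL⟩ := hS (p + 1)
    obtain ⟨x₀, h0⟩ := window p hp L
    obtain ⟨x, hx, T, hT, hTS, hc⟩ := hL x₀
    exact h0 x hx T hT hc (h T hTS)
  · intro h T _
    exact direct_of_Q1 h T

theorem clustered_ap (a m : ℕ) (hm : 1 ≤ m) : Clustered {x | ∃ i : ℕ, x = a + m * i} := by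
  classical
  intro n
  refine ⟨m * n, fun x₀ => ⟨a + m * x₀, by nlinarith, 
    (range n).image (fun i => a + m * (x₀ + i)), ?_, ?_, ?_⟩⟩
  · intro y hy
    obtain ⟨i, hi, rfl⟩ := mem_image.1 hy
    have := mem_range.1 hi
    rw [mem_Icc]
    constructor
    · nlinarith [Nat.zero_le (m * i)]
    · have : m * i ≤ m * n := Nat.mul_le_mul_left _ this.le
      nlinarith
  · intro y hy
    rw [Finset.mem_coe] at hy
    obtain ⟨i, hi, rfl⟩ := mem_image.1 hy
    exact ⟨x₀ + i, rfl⟩
  · rw [Finset.card_image_of_injective, card_range]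
    intro i j hij
    simp only [add_right_inj] at hij
    have := Nat.eq_of_mul_eq_mul_left (by omega : 0 < m) hij
    omega

end Pool.Agent.W46.MZ
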