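import Mathlib
import Pool.Agent.W46.MZ.Pat

set_option autoImplicit false

namespace Pool.Agent.W46.MZ

open Finset Filter Topology

theorem Ddim_pos (p : ℕ) (hf : ∀ n, Module.Finite ℚ (Z n)) : 1 ≤ Ddim p := by
  classical
  have h0 : 1 ≤ Module.finrank ℚ (Z 0) := by
    have := hf 0
    apply Module.finrank_pos_iff_exists_ne_zero.2
    exact ⟨⟨1, zone⟩, fun h => one_ne_zero (congrArg Subtype.val h)⟩
  refine h0.trans ?_
  unfold Ddim
  exact Finset.single_le_sum (f := fun j => Module.finrank ℚ (Z j)) (fun _ _ => Nat.zero_le _)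
    (mem_range.2 (Nat.succ_pos p))

/-- Directness from almost maximal dimensions. -/
theorem direct_of_dim (hB : S_BND) (hD : S_DROP) (P : ℕ)
    (h : ∃ p₀ : ℕ, ∀ p, p₀ ≤ p → (1 - 1 / (3 : ℝ) ^ P) * (Ddim p : ℝ) ≤ (Fdim p : ℝ)) :
    Direct (range (P + 1)) := by
  classical
  obtain ⟨hfin, hbnd⟩ := hB
  rcases Nat.eq_zero_or_pos P with rfl | hP
  · intro z hz hs j hj
    simp only [zero_add, range_one, mem_singleton, sum_singleton] at hj hs
    rw [hj, hs]
  by_contra hnd
  obtain ⟨p₀, hp₀⟩ := h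
  have key : ∀ p, p₀ ≤ p → P ≤ p → (3 : ℝ) ^ P * (Ddim (p - P) : ℝ) ≤ (Ddim p : ℝ) := by
    intro p hp hPp
    have h1 := hp₀ p hp
    have h2 : ((Fdim p + Ddim (p - P) : ℕ) : ℝ) ≤ (Ddim p : ℝ) := by
      exact_mod_cast hD hfin P hnd p hPp
    push_cast at h2
    have h3 : (Ddim (p - P) : ℝ) ≤ 1 / (3 : ℝ) ^ P * (Ddim p : ℝ) := by linarith
    have h4 : (0 : ℝ) < (3 : ℝ) ^ P := by positivity
    calc (3 : ℝ) ^ P * (Ddim (p - P) : ℝ) ≤ (3 : ℝ) ^ P * (1 / (3 : ℝ) ^ P * (Ddim p : ℝ)) := by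
          gcongr
      _ = (Ddim p : ℝ) := by field_simp
  have iter : ∀ k : ℕ, ((3 : ℝ) ^ P) ^ k ≤ (Ddim (p₀ + k * P) : ℝ) := by
    intro k
    induction k with
    | zero =>
      simp only [pow_zero, zero_mul, add_zero]
      exact_mod_cast Ddim_pos p₀ hfin
    | succ k ih =>
      have h1 := key (p₀ + (k + 1) * P) (Nat.le_add_right _ _) (by nlinarith [Nat.zero_le (k * P)])
      have e1 : p₀ + (k + 1) * P - P = p₀ + k * P := by
        have : (k + 1) * P = k * P + P := by ring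
        omega
      rw [e1] at h1
      calc ((3 : ℝ) ^ P) ^ (k + 1) = (3 : ℝ) ^ P * ((3 : ℝ) ^ P) ^ k := by ring
        _ ≤ (3 : ℝ) ^ P * (Ddim (p₀ + k * P) : ℝ) := by gcongr
        _ ≤ _ := h1
  have iter2 : ∀ k : ℕ, ((3 : ℝ) ^ P) ^ k ≤ 2 ^ p₀ * ((2 : ℝ) ^ P) ^ k := by
    intro k
    refine (iter k).trans ?_
    have h1 : (Ddim (p₀ + k * P) : ℝ) ≤ ((2 ^ (p₀ + k * P) : ℕ) : ℝ) := by
      exact_mod_cast hbnd (p₀ + k * P)
    refine h1.trans (le_of_eq ?_)
    push_cast
    rw [pow_add, ← pow_mul, mul_comm P k]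
  have h2 : (1 : ℝ) < (3 / 2 : ℝ) ^ P := one_lt_pow₀ (by norm_num) (by omega)
  obtain ⟨k, hk⟩ := pow_unbounded_of_one_lt ((2 : ℝ) ^ p₀) h2
  have h3 := iter2 k
  have h4 : (0 : ℝ) < ((2 : ℝ) ^ P) ^ k := by positivity
  have h5 : (((3 / 2 : ℝ) ^ P) ^ k) * ((2 : ℝ) ^ P) ^ k = ((3 : ℝ) ^ P) ^ k := by
    rw [← mul_pow, ← mul_pow]
    norm_num
  rw [← h5] at h3
  exact absurd (le_of_mul_le_mul_right h3 h4) (not_le.2 hk)

/-- directness gives the exact dimensions -/
theorem dim_of_direct (hfin : ∀ n, Module.Finite ℚ (Z n)) (p : ℕ) (h : Direct (range (p + 1))) :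
    Fdim p = Ddim p := by
  classical
  induction p with
  | zero =>
    unfold Fdim Ddim
    rw [zero_add, range_one, Finset.sum_singleton, Finset.iSup_singleton]
  | succ p ih =>
    have h1 : Direct (range (p + 1)) := h.mono (by
      intro x hx; rw [mem_range] at *; omega)
    have e1 : (⨆ j ∈ range (p + 1 + 1), Z j : Submodule ℚ ℝ) =
        (⨆ j ∈ range (p + 1), Z j) ⊔ Z (p + 1) := by
      rw [Finset.range_add_one (n := p + 1), Finset.iSup_insert, sup_comm]
    have hf1 : Module.Finite ℚ (⨆ j ∈ range (p + 1), Z j : Submodule ℚ ℝ) := by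
      rw [← Finset.sup_eq_iSup]
      exact Submodule.finite_finset_sup _ _
    have := hfin (p + 1)
    have h2 := Submodule.finrank_sup_add_finrank_inf_eq (⨆ j ∈ range (p + 1), Z j) (Z (p + 1))
    have h3 : (⨆ j ∈ range (p + 1), Z j : Submodule ℚ ℝ) ⊓ Z (p + 1) = ⊥ := by
      rw [eq_bot_iff]
      intro x hx
      obtain ⟨hx1, hx2⟩ := Submodule.mem_inf.1 hx
      rw [Submodule.mem_iSup_finset_iff_exists_sum] at hx1
      obtain ⟨μ, hμ⟩ := hx1
      have h4 := h (fun j => if j = p + 1 then - x else if j ∈ range (p + 1) then (μ j : ℝ) else 0) (by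
        intro j hj
        by_cases hj1 : j = p + 1
        · subst hj1
          simpa using hx2
        · simp only [hj1, if_false]
          split_ifs
          · exact (μ j).2
          · exact Submodule.zero_mem _) (by
        rw [Finset.sum_range_succ]
        simp only [if_true]
        have : ∑ j ∈ range (p + 1), (if j = p + 1 then - x else
            if j ∈ range (p + 1) then (μ j : ℝ) else 0) = x := by
          rw [← hμ]
          refine Finset.sum_congr rfl fun j hj => ?_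
          have hj1 : j ≠ p + 1 := by have := mem_range.1 hj; omega
          simp [hj1, hj]
        rw [this]
        ring) (p + 1) (by simp)
      simp only [if_true, neg_eq_zero] at h4
      rw [h4]
      exact Submodule.zero_mem _
    rw [h3] at h2
    simp only [finrank_bot, add_zero] at h2
    have h5 := ih h1
    unfold Fdim Ddim at *
    rw [e1, h2, h5]
    exact (Finset.sum_range_succ _ _).symm

theorem Q1_iff_dim (hB : S_BND) (hD : S_DROP) :
    Q1 ↔ Tendsto (fun p : ℕ => (Fdim p : ℝ) / (Ddim p : ℝ)) atTop (𝓝 1) := by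
  constructor
  · intro h
    have : (fun p : ℕ => (Fdim p : ℝ) / (Ddim p : ℝ)) = fun _ => 1 := by
      funext p
      rw [dim_of_direct hB.1 p (h p)]
      have := Ddim_pos p hB.1
      rw [div_self]
      positivity
    rw [this]
    exact tendsto_const_nhds
  · intro h P
    apply direct_of_dim hB hD
    have h1 : (1 - 1 / (3 : ℝ) ^ P) < 1 := by
      have : (0 : ℝ) < 1 / (3 : ℝ) ^ P := by positivity
      linarith
    have h2 := (tendsto_order.1 h).1 _ h1
    obtain ⟨p₀, hp₀⟩ := eventually_atTop.1 h2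
    refine ⟨p₀, fun p hp => ?_⟩
    have h3 := hp₀ p hp
    have h4 : (0 : ℝ) < (Ddim p : ℝ) := by
      have := Ddim_pos p hB.1
      positivity
    rw [lt_div_iff₀ h4] at h3
    exact h3.le

end Pool.Agent.W46.MZ
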