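import Mathlib
import Pool.Agent.W46.MZ.Pat

set_option autoImplicit false

namespace Pool.Agent.W46.MZ

open Finset Polynomial

/-- under `Q1` every nonzero homogeneous element of positive weight is transcendental over `KF` -/
theorem trans_of_Q1 (h : Q1) (w : ℕ) (hw : 1 ≤ w) (z : ℝ) (hz : z ∈ Z w) (hz0 : z ≠ 0) :
    Transcendental KF z := by
  classical
  rw [transcendental_iff]
  intro P hP
  by_contra hP0
  have hc : ∀ i ∈ range (P.natDegree + 1), ((P.coeff i : KF) : ℝ) ∈ K0 := fun i _ => (P.coeff i).2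
  obtain ⟨n, b, hb, hb0, hbc⟩ := common _ (fun i => ((P.coeff i : KF) : ℝ)) hc
  rw [Polynomial.aeval_eq_sum_range] at hP
  have hinj : ∀ i ∈ range (P.natDegree + 1), ∀ j ∈ range (P.natDegree + 1),
      n + w * i = n + w * j → i = j := by
    intro i _ j _ hij
    exact Nat.eq_of_mul_eq_mul_left (by omega : 0 < w) (by omega)
  let y : ℕ → ℝ := fun k => b * ((P.coeff ((k - n) / w) : KF) : ℝ) * z ^ ((k - n) / w)
  have he : ∀ i, (n + w * i - n) / w = i := by
    intro i
    rw [Nat.add_sub_cancel_left, Nat.mul_div_cancel_left _ (by omega : 0 < w)]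
  have h1 := direct_of_Q1 h ((range (P.natDegree + 1)).image (fun i => n + w * i)) y (by
    intro k hk
    obtain ⟨i, hi, rfl⟩ := mem_image.1 hk
    simp only [y, he]
    exact zmul (hbc i hi) (zpow hz i)) (by
    rw [Finset.sum_image hinj]
    simp only [y, he]
    have : ∀ i ∈ range (P.natDegree + 1), b * ((P.coeff i : KF) : ℝ) * z ^ i =
        b * (P.coeff i • z ^ i) := by
      intro i _
      rw [mul_assoc]
      rfl
    rw [Finset.sum_congr rfl this, ← Finset.mul_sum, hP, mul_zero])
    (n + w * P.natDegree) (mem_image_of_mem _ (by simp))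
  simp only [y, he] at h1
  rcases mul_eq_zero.1 h1 with h2 | h2
  · rcases mul_eq_zero.1 h2 with h3 | h3
    · exact hb0 h3
    · have : P.coeff P.natDegree = 0 := Subtype.ext h3
      exact hP0 (Polynomial.leadingCoeff_eq_zero.1 this)
  · exact pow_ne_zero _ hz0 h2

/-- a failure of directness makes every element of every `Z w` algebraic over `KF`, of degree at
most `p`. -/
theorem alg_all (p : ℕ) (h : ¬ Direct (range (p + 1))) (w : ℕ) (z : ℝ) (hz : z ∈ Z w) :
    ∃ P : KF[X], P ≠ 0 ∧ P.natDegree ≤ p ∧ aeval z P = 0 := by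
  classical
  obtain ⟨u3, hu3, hu30⟩ := exists_nonzero 3 (by norm_num)
  obtain ⟨u2, hu2, hu20⟩ := exists_nonzero 2 (by norm_num)
  obtain ⟨P, hP, hd, hx⟩ := alg_of_not p h u3 u2 3 2 hu3 hu30 hu2 hu20 rfl
  set x : ℝ := u3 / u2 with hxdef
  have halg : IsAlgebraic KF x := ⟨P, hP, hx⟩
  have hint : IsIntegral KF x := halg.isIntegral
  have hfin := IntermediateField.adjoin.finiteDimensional hint
  have hrk : Module.finrank KF (IntermediateField.adjoin KF {x}) ≤ p := by
    rw [IntermediateField.adjoin.finrank hint]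
    exact (Polynomial.natDegree_le_natDegree (minpoly.degree_le_of_ne_zero KF x hP hx)).trans hd
  have hk : z * u2 ^ w / u3 ^ w ∈ KF := by
    refine ⟨3 * w, z * u2 ^ w, ?_, u3 ^ w, zpow hu3 w, pow_ne_zero _ hu30, rfl⟩
    have h1 := zmul hz (zpow hu2 w)
    have e1 : w + 2 * w = 3 * w := by ring
    rwa [e1] at h1
  have hzm : z ∈ IntermediateField.adjoin KF {x} := by
    have h1 : z = algebraMap KF ℝ ⟨_, hk⟩ * x ^ w := by
      change z = z * u2 ^ w / u3 ^ w * x ^ w
      rw [hxdef, div_pow]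
      have := pow_ne_zero w hu20
      have := pow_ne_zero w hu30
      field_simp
    rw [h1]
    exact mul_mem (IntermediateField.algebraMap_mem _ _)
      (pow_mem (IntermediateField.mem_adjoin_simple_self KF x) w)
  let z' : IntermediateField.adjoin KF {x} := ⟨z, hzm⟩
  have hz' : IsIntegral KF z' := Algebra.IsIntegral.isIntegral z'
  refine ⟨minpoly KF z', minpoly.ne_zero hz', (minpoly.natDegree_le z').trans hrk, ?_⟩
  have h1 := minpoly.aeval KF z'
  have h2 := congrArg (algebraMap (IntermediateField.adjoin KF {x}) ℝ) h1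
  rw [map_zero, ← Polynomial.aeval_algebraMap_apply] at h2
  exact h2

theorem Q1_iff_trans (w : ℕ) (hw : 1 ≤ w) (z : ℝ) (hz : z ∈ Z w) (hz0 : z ≠ 0) :
    Q1 ↔ Transcendental KF z := by
  refine ⟨fun h => trans_of_Q1 h w hw z hz hz0, fun h p => ?_⟩
  by_contra hp
  obtain ⟨P, hP, _, hx⟩ := alg_all p hp w z hz
  exact h ⟨P, hP, hx⟩

theorem Q1_iff_pi : Q1 ↔ Transcendental KF Real.pi := by
  rw [Q1_iff_trans 2 (by norm_num) _ pi2mem (pow_ne_zero _ Real.pi_ne_zero)]
  constructor
  · intro h h2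
    exact h (h2.pow 2)
  · intro h h2
    exact h (h2.of_pow (by norm_num))

end Pool.Agent.W46.MZ
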