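import Mathlib
import Pool.Agent.W46.MZ.Pat

set_option autoImplicit false

namespace Pool.Agent.W46.MZ

open Finset Polynomial

/-- polynomials whose coefficient of `X ^ i` lies in `Z i` -/
noncomputable def Gr : Subring ℝ[X] where
  carrier := {f | ∀ i, f.coeff i ∈ Z i}
  mul_mem' := by
    intro f g hf hg n
    rw [Polynomial.coeff_mul]
    refine Submodule.sum_mem _ fun x hx => ?_
    have h := zmul (hf x.1) (hg x.2)
    rwa [mem_antidiagonal.1 hx] at h
  one_mem' := by
    intro i
    rw [Polynomial.coeff_one]
    split_ifs with h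
    · subst h; exact zone
    · exact Submodule.zero_mem _
  add_mem' := by
    intro f g hf hg n
    rw [Polynomial.coeff_add]
    exact Submodule.add_mem _ (hf n) (hg n)
  zero_mem' := by
    intro i
    rw [Polynomial.coeff_zero]
    exact Submodule.zero_mem _
  neg_mem' := by
    intro f hf n
    rw [Polynomial.coeff_neg]
    exact Submodule.neg_mem _ (hf n)

variable {m : ℕ}

/-- the exponents of `f` lie in the class `a` -/
def Sp (a : ZMod m) (f : ℝ[X]) : Prop := ∀ i : ℕ, f.coeff i ≠ 0 → (i : ZMod m) = a

theorem Sp.mul {a b : ZMod m} {f g : ℝ[X]} (hf : Sp a f) (hg : Sp b g) : Sp (a + b) (f * g) := by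
  intro n hn
  rw [Polynomial.coeff_mul] at hn
  obtain ⟨x, hx, hx0⟩ := Finset.exists_ne_zero_of_sum_ne_zero hn
  have h1 := hf x.1 (left_ne_zero_of_mul hx0)
  have h2 := hg x.2 (right_ne_zero_of_mul hx0)
  rw [← mem_antidiagonal.1 hx]
  push_cast
  rw [h1, h2]

theorem Sp.prod {ι : Type*} (s : Finset ι) (a : ι → ZMod m) (f : ι → ℝ[X])
    (h : ∀ i ∈ s, Sp (a i) (f i)) : Sp (∑ i ∈ s, a i) (∏ i ∈ s, f i) := by
  classical
  induction s using Finset.induction_on with
  | empty =>
    intro n hn
    simp only [prod_empty, Polynomial.coeff_one, ne_eq, ite_eq_right_iff, one_ne_zero, imp_false,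
      not_not] at hn
    simp [hn]
  | insert i s hi ih =>
    rw [prod_insert hi, sum_insert hi]
    exact (h i (mem_insert_self _ _)).mul (ih fun j hj => h j (mem_insert_of_mem hj))

theorem Sp.sum {ι : Type*} (s : Finset ι) (a : ZMod m) (f : ι → ℝ[X])
    (h : ∀ i ∈ s, Sp a (f i)) : Sp a (∑ i ∈ s, f i) := by
  intro n hn
  rw [Polynomial.finsetSum_coeff] at hn
  obtain ⟨i, hi, hi0⟩ := Finset.exists_ne_zero_of_sum_ne_zero hn
  exact h i hi n hi0

/-- the part of `f` with exponents in the class `a` -/
noncomputable def part (a : ZMod m) (f : ℝ[X]) : ℝ[X] :=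
  ∑ i ∈ range (f.natDegree + 1), if (i : ZMod m) = a then Polynomial.monomial i (f.coeff i) else 0

theorem coeff_part (a : ZMod m) (f : ℝ[X]) (n : ℕ) :
    (part a f).coeff n = if (n : ZMod m) = a then f.coeff n else 0 := by
  classical
  unfold part
  rw [Polynomial.finsetSum_coeff]
  by_cases hn : n ∈ range (f.natDegree + 1)
  · rw [Finset.sum_eq_single n]
    · split_ifs <;> simp
    · intro i _ hi
      split_ifs
      · rw [Polynomial.coeff_monomial, if_neg hi]
      · simp
    · intro h; exact absurd hn h
  · have h0 : f.coeff n = 0 := Polynomial.coeff_eq_zero_of_natDegree_lt (by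
      rw [mem_range] at hn; omega)
    rw [h0, ite_self]
    refine Finset.sum_eq_zero fun i hi => ?_
    have : i ≠ n := fun h => hn (h ▸ hi)
    split_ifs
    · rw [Polynomial.coeff_monomial, if_neg this]
    · simp

theorem Sp_part (a : ZMod m) (f : ℝ[X]) : Sp a (part a f) := by
  intro n hn
  rw [coeff_part] at hn
  by_contra h
  rw [if_neg h] at hn
  exact hn rfl

theorem part_mem (a : ZMod m) (f : ℝ[X]) (hf : f ∈ Gr) : part a f ∈ Gr := by
  intro n
  rw [coeff_part]
  split_ifs
  · exact hf n
  · exact Submodule.zero_mem _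

theorem part_zero (a : ZMod m) : part a 0 = 0 := by
  ext n; rw [coeff_part]; simp

theorem part_sum {ι : Type*} (s : Finset ι) (a : ZMod m) (f : ι → ℝ[X]) :
    part a (∑ i ∈ s, f i) = ∑ i ∈ s, part a (f i) := by
  ext n
  rw [coeff_part, Polynomial.finsetSum_coeff, Polynomial.finsetSum_coeff]
  simp only [coeff_part]
  split_ifs
  · rfl
  · simp

theorem part_mul (a b : ZMod m) (f g : ℝ[X]) (hf : Sp a f) :
    part (a + b) (f * g) = f * part b g := by
  ext n
  rw [coeff_part, Polynomial.coeff_mul, Polynomial.coeff_mul]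
  simp only [coeff_part]
  split_ifs with h
  · refine Finset.sum_congr rfl fun x hx => ?_
    by_cases h1 : f.coeff x.1 = 0
    · rw [h1]; simp
    · have h2 := hf x.1 h1
      have h3 : ((x.2 : ℕ) : ZMod m) = b := by
        have h4 := mem_antidiagonal.1 hx
        rw [← h4] at h
        push_cast at h
        rw [h2] at h
        exact add_left_cancel h
      rw [if_pos h3]
  · symm
    refine Finset.sum_eq_zero fun x hx => ?_
    by_cases h1 : f.coeff x.1 = 0
    · rw [h1]; simp
    · have h2 := hf x.1 h1
      have h3 : ¬ ((x.2 : ℕ) : ZMod m) = b := by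
        intro h5
        apply h
        rw [← mem_antidiagonal.1 hx]
        push_cast
        rw [h2, h5]
      rw [if_neg h3, mul_zero]

theorem sum_part [NeZero m] (f : ℝ[X]) : ∑ a : ZMod m, part a f = f := by
  ext n
  rw [Polynomial.finsetSum_coeff]
  simp only [coeff_part]
  rw [Finset.sum_ite_eq]
  simp

theorem natDegree_part_le (a : ZMod m) (f : ℝ[X]) (p : ℕ) (hf : f.natDegree ≤ p) :
    (part a f).natDegree ≤ p := by
  rw [Polynomial.natDegree_le_iff_coeff_eq_zero]
  intro n hn
  rw [coeff_part, Polynomial.coeff_eq_zero_of_natDegree_lt (by omega), ite_self]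

/-- the norm of a graded polynomial -/
theorem norm_exists [NeZero m] (P : ℝ[X]) (hP : P ∈ Gr) (hP0 : P ≠ 0) (h1 : P.eval 1 = 0) (p : ℕ)
    (hp : P.natDegree ≤ p) :
    ∃ Q : ℝ[X], Q ∈ Gr ∧ Q ≠ 0 ∧ Q.eval 1 = 0 ∧ Q.natDegree ≤ p * m ∧ Sp (0 : ZMod m) Q := by
  classical
  let M : Matrix (ZMod m) (ZMod m) ℝ[X] := fun r s => part (r - s) P
  refine ⟨M.det, ?_, ?_, ?_, ?_, ?_⟩
  · rw [Matrix.det_apply]
    refine Subring.sum_mem _ fun σ _ => ?_
    rw [Units.smul_def]
    exact Subring.zsmul_mem _ (Subring.prod_mem _ fun i _ => part_mem _ _ hP) _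
  · intro hdet
    obtain ⟨v, hv0, hv⟩ := Matrix.exists_mulVec_eq_zero_iff.2 hdet
    obtain ⟨s, hs⟩ := Function.ne_iff.1 hv0
    obtain ⟨i, hi⟩ : ∃ i, (v s).coeff i ≠ 0 := by
      by_contra hcon
      push Not at hcon
      exact hs (Polynomial.ext fun i => by simpa using hcon i)
    let c : ZMod m := (i : ZMod m) - s
    have hV : P * ∑ s : ZMod m, part (s + c) (v s) = 0 := by
      conv_lhs => rw [← sum_part (m := m) P]
      rw [Finset.sum_mul_sum, Finset.sum_comm]
      have : ∀ y ∈ (univ : Finset (ZMod m)), ∑ x : ZMod m, part x P * part (y + c) (v y) =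
          ∑ r : ZMod m, part (r - y) P * part (y + c) (v y) := by
        intro y _
        exact (Fintype.sum_equiv (Equiv.subRight y) _ _ (fun r => rfl)).symm
      rw [Finset.sum_congr rfl this, Finset.sum_comm]
      refine Finset.sum_eq_zero fun r _ => ?_
      have h2 : ∀ y ∈ (univ : Finset (ZMod m)), part (r - y) P * part (y + c) (v y) =
          part (r + c) (part (r - y) P * v y) := by
        intro y _
        rw [← part_mul _ _ _ _ (Sp_part (r - y) P)]
        congr 1
        ring
      rw [Finset.sum_congr rfl h2, ← part_sum]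
      have h3 : ∑ y : ZMod m, part (r - y) P * v y = 0 := by
        have := congrFun hv r
        simpa [Matrix.mulVec, dotProduct, M] using this
      rw [h3, part_zero]
    rcases mul_eq_zero.1 hV with h2 | h2
    · exact hP0 h2
    · have h3 := congrArg (fun f : ℝ[X] => f.coeff i) h2
      simp only [Polynomial.finsetSum_coeff, coeff_part, Polynomial.coeff_zero] at h3
      rw [Finset.sum_eq_single s] at h3
      · rw [if_pos (by simp only [c]; ring)] at h3
        exact hi h3
      · intro y _ hy
        rw [if_neg]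
        intro h4
        apply hy
        simp only [c] at h4
        have : y = s := by linear_combination -h4
        exact this
      · intro h; exact absurd (mem_univ _) h
  · have h2 : (Polynomial.evalRingHom (1 : ℝ)) M.det = 0 := by
      rw [RingHom.map_det]
      apply Matrix.exists_mulVec_eq_zero_iff.1
      refine ⟨fun _ => 1, ?_, ?_⟩
      · intro h
        exact one_ne_zero (congrFun h 0)
      · funext r
        simp only [Matrix.mulVec, dotProduct, mul_one, Pi.zero_apply, RingHom.mapMatrix_apply,
          Matrix.map_apply, M]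
        have h4 : ∑ s : ZMod m, part (r - s) P = P := by
          conv_rhs => rw [← sum_part (m := m) P]
          exact Fintype.sum_equiv (Equiv.subLeft r) _ _ (fun s => rfl)
        rw [← map_sum, h4]
        exact h1
    exact h2
  · rw [Matrix.det_apply]
    refine Polynomial.natDegree_sum_le_of_forall_le _ _ fun σ _ => ?_
    rw [Units.smul_def]
    refine (Polynomial.natDegree_smul_le _ _).trans ?_
    refine (Polynomial.natDegree_prod_le _ _).trans ?_
    calc ∑ i : ZMod m, (M (σ i) i).natDegree ≤ ∑ _i : ZMod m, p :=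
          Finset.sum_le_sum fun i _ => natDegree_part_le _ _ _ hp
      _ = p * m := by
          rw [Finset.sum_const, Finset.card_univ, ZMod.card, smul_eq_mul, mul_comm]
  · rw [Matrix.det_apply]
    refine Sp.sum _ _ _ fun σ _ => ?_
    have h2 := Sp.prod (m := m) univ (fun i => σ i - i) (fun i => M (σ i) i)
      (fun i _ => Sp_part _ _)
    have h3 : ∑ i : ZMod m, (σ i - i) = 0 := by
      rw [Finset.sum_sub_distrib, Equiv.sum_comp σ (fun i => i), sub_self]
    rw [h3] at h2
    intro n hn
    apply h2 n
    intro h4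
    apply hn
    rw [Units.smul_def, Polynomial.coeff_smul, h4, smul_zero]

/-- A failure of directness up to `p` gives one with the weights `0, m, ..., p m`. -/
theorem veronese (p : ℕ) (h : ¬ Direct (range (p + 1))) (m : ℕ) (hm : 1 ≤ m) :
    ¬ Direct ((range (p + 1)).image (fun i => m * i)) := by
  classical
  haveI : NeZero m := ⟨by omega⟩
  unfold Direct at h
  push Not at h
  obtain ⟨y, hy, hs, j, hj, hj0⟩ := h
  let P : ℝ[X] := ∑ i ∈ range (p + 1), Polynomial.monomial i (y i)
  have hcoef : ∀ i, P.coeff i = if i ∈ range (p + 1) then y i else 0 := by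
    intro i
    simp only [P, Polynomial.finsetSum_coeff, Polynomial.coeff_monomial]
    rw [Finset.sum_ite_eq' (range (p + 1)) i y]
  have hP : P ∈ Gr := by
    intro i
    rw [hcoef]
    split_ifs with hi
    · exact hy i hi
    · exact Submodule.zero_mem _
  have hP0 : P ≠ 0 := by
    intro h0
    have := hcoef j
    rw [h0, Polynomial.coeff_zero, if_pos hj] at this
    exact hj0 this.symm
  have h1 : P.eval 1 = 0 := by
    simp only [P, Polynomial.eval_finset_sum, Polynomial.eval_monomial, one_pow, mul_one]
    exact hs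
  have hd : P.natDegree ≤ p := by
    refine Polynomial.natDegree_sum_le_of_forall_le _ _ fun i hi => ?_
    exact (Polynomial.natDegree_monomial_le _).trans (by
      have := mem_range.1 hi
      omega)
  obtain ⟨Q, hQ, hQ0, hQ1, hQd, hQs⟩ := norm_exists (m := m) P hP hP0 h1 p hd
  intro hdir
  have hinj : ∀ i ∈ range (p + 1), ∀ j ∈ range (p + 1), m * i = m * j → i = j :=
    fun i _ j _ hij => Nat.eq_of_mul_eq_mul_left (by omega : 0 < m) hij
  have hsupp : Q.support ⊆ (range (p + 1)).image (fun i => m * i) := by
    intro n hn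
    rw [Polynomial.mem_support_iff] at hn
    have h2 := hQs n hn
    rw [ZMod.natCast_eq_zero_iff] at h2
    obtain ⟨i, rfl⟩ := h2
    have h3 : m * i ≤ p * m := by
      refine le_trans ?_ hQd
      exact Polynomial.le_natDegree_of_ne_zero hn
    refine mem_image.2 ⟨i, ?_, rfl⟩
    rw [mem_range]
    have h4 : m * i ≤ m * p := by rwa [mul_comm p m] at h3
    exact Nat.lt_succ_of_le (Nat.le_of_mul_le_mul_left h4 (by omega))
  have h5 : ∑ n ∈ (range (p + 1)).image (fun i => m * i), Q.coeff n = 0 := by
    rw [← hQ1, Polynomial.eval_eq_sum, Polynomial.sum_def]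
    simp only [one_pow, mul_one]
    symm
    refine Finset.sum_subset hsupp fun n _ hn => ?_
    rwa [Polynomial.notMem_support_iff] at hn
  have h6 := hdir (fun n => Q.coeff n) (fun n _ => hQ n) h5
  apply hQ0
  ext n
  by_cases hn : n ∈ Q.support
  · simpa using h6 n (hsupp hn)
  · simpa using Polynomial.notMem_support_iff.1 hn

end Pool.Agent.W46.MZ
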